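import Mathlib
import Pool.Agent.Helper26.HB.Goals

/-! Packet HB-PT (MP_a47ed5_al): potentials. -/

set_option autoImplicit false

namespace Pool.Agent.Helper11.HB

open Pool.Agent.Helper26.HB

section

variable {G : Type} [Group G] (N : Subgroup G) [N.Normal]

/-- representative of the coset -/
noncomputable def ta (g : G) : G := ((QuotientGroup.mk g : G ⧸ N)).out

lemma mk_ta (g : G) : (QuotientGroup.mk (ta N g) : G ⧸ N) = QuotientGroup.mk g := by
  unfold ta
  exact Quotient.out_eq' _

lemma nu_mem (g : G) : g * (ta N g)⁻¹ ∈ N := by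
  have h : (QuotientGroup.mk (g * (ta N g)⁻¹) : G ⧸ N) = 1 := by
    rw [QuotientGroup.mk_mul, QuotientGroup.mk_inv, mk_ta, mul_inv_cancel]
  exact (QuotientGroup.eq_one_iff _).1 h

/-- the part in `N` -/
noncomputable def nu (g : G) : N := ⟨g * (ta N g)⁻¹, nu_mem N g⟩

lemma ta_mul (n : N) (g : G) : ta N (n * g) = ta N g := by
  unfold ta
  congr 1
  rw [QuotientGroup.mk_mul, (QuotientGroup.eq_one_iff (n : G)).2 n.2, one_mul]

lemma nu_mul (n : N) (g : G) : nu N (n * g) = n * nu N g := by
  apply Subtype.ext
  simp only [nu, ta_mul, Subgroup.coe_mul, mul_assoc]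

lemma nu_ta (g : G) : (nu N g : G) * ta N g = g := by
  simp [nu]

lemma ta_coset {g g' : G} (h : (QuotientGroup.mk g : G ⧸ N) = QuotientGroup.mk g') :
    ta N g = ta N g' := by
  unfold ta; rw [h]

end

theorem gPT : Pool.Agent.Helper26.HB.G_PT := by
  intro G _ S N _ _ Q ℓ c hom hS hinv hloop
  classical
  -- base function
  set e : G → ℝ := fun g => ℓ (nu N g) with he
  have e_mul : ∀ (n : N) (g : G), e (n * g) = ℓ n + e g := by
    intro n g
    simp only [he, nu_mul, hom]
  have l1 : ℓ 1 = 0 := by
    have := hom 1 1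
    rw [one_mul] at this
    linarith
  have linv : ∀ n : N, ℓ n⁻¹ = - ℓ n := by
    intro n
    have := hom n⁻¹ n
    rw [inv_mul_cancel, l1] at this
    linarith
  -- edge bounds
  have hfin : Finite (G ⧸ N) := inferInstance
  obtain ⟨K, hK0, hK⟩ : ∃ K : ℝ, 0 ≤ K ∧ ∀ (g s : G), s ∈ S → e (g * s) - e g ≤ K := by
    let F : (G ⧸ N) × S → ℝ := fun x => e (x.1.out * x.2.1) - e x.1.out
    have hb : BddAbove (Set.range F) := (Set.finite_range F).bddAbove
    obtain ⟨K, hK⟩ := hb
    refine ⟨max K 0, le_max_right _ _, fun g s hs => ?_⟩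
    have h1 : F ((QuotientGroup.mk g : G ⧸ N), ⟨s, hs⟩) ≤ K := hK ⟨_, rfl⟩
    have h2 : e (g * s) = ℓ (nu N g) + e (ta N g * s) := by
      rw [← e_mul, ← mul_assoc, nu_ta]
    have h3 : e g = ℓ (nu N g) + e (ta N g) := by
      rw [← e_mul, nu_ta]
    have h4 : F ((QuotientGroup.mk g : G ⧸ N), ⟨s, hs⟩) = e (ta N g * s) - e (ta N g) := rfl
    rw [h2, h3]
    rw [h4] at h1
    have := le_max_left K 0
    linarith
  have hpath : ∀ (M : ℕ) (p : ℕ → G), (∀ i < M, Q (p i) (p (i + 1))) →
      e (p M) - e (p 0) ≤ K * M := by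
    intro M p
    induction M with
    | zero => intro _; simp
    | succ M ih =>
      intro h
      have h1 := ih (fun i hi => h i (by omega))
      have h2 := hK (p M) ((p M)⁻¹ * p (M + 1)) (hS _ _ (h M (by omega)))
      rw [mul_inv_cancel_left] at h2
      push_cast
      linarith
  -- the claim
  set k := N.index with hk
  obtain ⟨C, hC⟩ : ∃ C : ℝ, ∀ (M : ℕ) (p : ℕ → G), (∀ i < M, Q (p i) (p (i + 1))) →
      e (p M) - e (p 0) ≤ c * M + C := by
    refine ⟨K * k + |c| * k, ?_⟩
    intro M
    induction M using Nat.strong_induction_on with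
    | _ M ih =>
      intro p hp
      rcases lt_or_ge M k with hM | hM
      · have h1 := hpath M p hp
        have h2 : (M : ℝ) ≤ k := by exact_mod_cast hM.le
        have h3 : K * M ≤ K * k := mul_le_mul_of_nonneg_left h2 hK0
        have h4 : -(|c| * k) ≤ c * M := by
          have h5 : |c * M| ≤ |c| * k := by
            rw [abs_mul, Nat.abs_cast]
            exact mul_le_mul_of_nonneg_left h2 (abs_nonneg c)
          have := neg_abs_le (c * M)
          linarith
        linarith
      · -- pigeonhole
        have : Fintype (G ⧸ N) := Fintype.ofFinite _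
        have hcard : Fintype.card (G ⧸ N) < Fintype.card (Fin (k + 1)) := by
          rw [Fintype.card_fin, ← Nat.card_eq_fintype_card]
          have : Nat.card (G ⧸ N) = k := rfl
          omega
        obtain ⟨a, b, hab, hab'⟩ := Fintype.exists_ne_map_eq_of_card_lt
          (fun i : Fin (k + 1) => (QuotientGroup.mk (p i) : G ⧸ N)) hcard
        obtain ⟨i, j, hij, hjk, hmk⟩ : ∃ i j : ℕ, i < j ∧ j ≤ k ∧
            (QuotientGroup.mk (p i) : G ⧸ N) = QuotientGroup.mk (p j) := by
          rcases lt_or_gt_of_ne (fun h : (a : ℕ) = b => hab (Fin.ext h)) with h | h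
          · exact ⟨a, b, h, by omega, hab'⟩
          · exact ⟨b, a, h, by omega, hab'.symm⟩
        have hnmem : p j * (p i)⁻¹ ∈ N := by
          have h : (QuotientGroup.mk (p j * (p i)⁻¹) : G ⧸ N) = 1 := by
            rw [QuotientGroup.mk_mul, QuotientGroup.mk_inv, hmk, mul_inv_cancel]
          exact (QuotientGroup.eq_one_iff _).1 h
        set n : N := ⟨p j * (p i)⁻¹, hnmem⟩ with hn
        have hnp : p j = (n : G) * p i := by simp [hn]
        have hl : ℓ n ≤ c * ((j - i : ℕ) : ℝ) := by
          apply hloop (fun t => p (i + t)) (j - i) (by omega) (by omega)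
          · intro t ht
            have := hp (i + t) (by omega)
            rwa [add_assoc] at this
          · simp only [add_zero]
            rw [← hnp]
            congr 1; omega
        set p' : ℕ → G := fun t => if t ≤ i then p t else ((n⁻¹ : N) : G) * p (t + (j - i)) with hp'
        have hp'1 : ∀ t ≤ i, p' t = p t := by
          intro t ht; simp [hp', ht]
        have hp'2 : ∀ t, i ≤ t → p' t = ((n⁻¹ : N) : G) * p (t + (j - i)) := by
          intro t ht
          rcases eq_or_lt_of_le ht with h | h
          · subst h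
            rw [hp'1 i le_rfl, show i + (j - i) = j by omega, hnp]
            simp
          · simp [hp', not_le.2 h]
        have hq : ∀ t < M - (j - i), Q (p' t) (p' (t + 1)) := by
          intro t ht
          rcases lt_or_ge t i with h | h
          · rw [hp'1 t h.le, hp'1 (t + 1) (by omega)]
            exact hp t (by omega)
          · rw [hp'2 t h, hp'2 (t + 1) (by omega)]
            have := hp (t + (j - i)) (by omega)
            rw [show t + 1 + (j - i) = t + (j - i) + 1 by omega]
            exact hinv _ _ _ this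
        have h1 := ih (M - (j - i)) (by omega) p' hq
        rw [hp'1 0 (by omega), hp'2 (M - (j - i)) (by omega), e_mul, linv,
          show M - (j - i) + (j - i) = M by omega] at h1
        have h2 : ((M - (j - i) : ℕ) : ℝ) = (M : ℝ) - ((j - i : ℕ) : ℝ) := by
          rw [Nat.cast_sub (by omega)]
        rw [h2] at h1
        nlinarith
  -- the potential
  let A : G → Set ℝ := fun g => {x | ∃ (M : ℕ) (p : ℕ → G),
    (∀ i < M, Q (p i) (p (i + 1))) ∧ p M = g ∧ x = e (p 0) + c * M}
  have hne : ∀ g, (A g).Nonempty := fun g => ⟨e g + c * 0, 0, fun _ => g, by simp, rfl, by simp⟩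
  have hbdd : ∀ g, BddBelow (A g) := by
    intro g
    refine ⟨e g - C, ?_⟩
    rintro x ⟨M, p, hp, rfl, rfl⟩
    have := hC M p hp
    linarith
  have hle : ∀ (n : N) (g : G), sInf (A (n * g)) ≤ ℓ n + sInf (A g) := by
    intro n g
    have : sInf (A (n * g)) - ℓ n ≤ sInf (A g) := by
      apply le_csInf (hne g)
      rintro x ⟨M, p, hp, hg, rfl⟩
      have hmem : ℓ n + (e (p 0) + c * M) ∈ A (n * g) := by
        refine ⟨M, fun i => n * p i, fun i hi => hinv _ _ _ (hp i hi), by simp [hg], ?_⟩
        simp only [e_mul]; ring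
      have := csInf_le (hbdd _) hmem
      linarith
    linarith
  refine ⟨fun g => sInf (A g), ?_, ?_⟩
  · intro n g
    apply le_antisymm (hle n g)
    have := hle n⁻¹ (n * g)
    rw [linv] at this
    have h2 : ((n⁻¹ : N) : G) * ((n : G) * g) = g := by simp
    rw [h2] at this
    linarith
  · intro g g' hQ
    have : sInf (A g') - c ≤ sInf (A g) := by
      apply le_csInf (hne g)
      rintro x ⟨M, p, hp, hg, rfl⟩
      have hmem : e (p 0) + c * M + c ∈ A g' := by
        refine ⟨M + 1, fun i => if i ≤ M then p i else g', ?_, by simp, ?_⟩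
        · intro i hi
          rcases eq_or_lt_of_le (Nat.lt_succ_iff.1 hi) with h | h
          · subst h
            simp [hg, hQ]
          · simp only [h.le, if_true, show i + 1 ≤ M from h]
            exact hp i h
        · simp only [Nat.zero_le, if_true]
          push_cast; ring
      have := csInf_le (hbdd _) hmem
      linarith
    show sInf (A g') ≤ sInf (A g) + c
    linarith

end Pool.Agent.Helper11.HB
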